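import Pool.Agent.H55.HFP5

set_option autoImplicit false

namespace Pool.Agent.Results.MP_93c42a_an.AllSpaces

universe u

/-- `T : K → K` is uniformly `α`-Hölder nonexpansive. -/
def UnifHolderNonexp {X : Type u} [NormedAddCommGroup X] {K : Set X} (α : ℝ) (T : K → K) : Prop :=
  ∀ n : ℕ, 1 ≤ n → ∀ x y : K, ‖((T^[n] x : K) : X) - (T^[n] y : K)‖ ≤ ‖(x : X) - y‖ ^ α

/-- The minimal displacement of `T : K → K`. -/
noncomputable def minDisp {X : Type u} [NormedAddCommGroup X] {K : Set X} (T : K → K) : ℝ :=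
  ⨅ x : K, ‖(x : X) - (T x : K)‖

/-- Property (H) of the closed unit ball of `X`. -/
def PropertyH (X : Type u) [NormedAddCommGroup X] : Prop :=
  ∀ α : ℝ, 0 < α → α < 1 →
    ∃ T : Metric.closedBall (0 : X) 1 → Metric.closedBall (0 : X) 1,
      UnifHolderNonexp α T ∧ (∀ x, T x ≠ x) ∧ minDisp T = 0

/-- The closed unit ball of every infinite-dimensional real normed space has property (H). -/
theorem result (X : Type u) [NormedAddCommGroup X] [NormedSpace ℝ X]
    (hX : ¬ FiniteDimensional ℝ X) : PropertyH X := by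
  intro α a0 a1
  obtain ⟨T, h1, h2, h3, h4⟩ := Pool.Agent.H55.HFP.exists_map hX a0 a1
  let S : Metric.closedBall (0 : X) 1 → Metric.closedBall (0 : X) 1 :=
    fun x => ⟨T x, mem_closedBall_zero_iff.2 (h1 x)⟩
  have it : ∀ n x, ((S^[n] x : Metric.closedBall (0 : X) 1) : X) = T^[n] x := by
    intro n x
    induction n with
    | zero => rfl
    | succ n ih => rw [Function.iterate_succ_apply', Function.iterate_succ_apply', ← ih]
  refine ⟨S, fun n hn x y => ?_, fun x hx => h3 x (congrArg Subtype.val hx), ?_⟩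
  · rw [it, it]
    exact h2 n hn x y
  · have hb : BddBelow (Set.range fun x : Metric.closedBall (0 : X) 1 =>
        ‖(x : X) - (S x : Metric.closedBall (0 : X) 1)‖) := ⟨0, by
      rintro _ ⟨x, rfl⟩
      exact norm_nonneg _⟩
    apply le_antisymm
    · refine le_of_forall_pos_le_add fun δ hδ => ?_
      obtain ⟨x, hx, hx2⟩ := h4 δ hδ
      refine (ciInf_le hb ⟨x, mem_closedBall_zero_iff.2 hx⟩).trans ?_
      rw [zero_add]
      exact hx2.le
    · exact Real.iInf_nonneg fun x => norm_nonneg _

end Pool.Agent.Results.MP_93c42a_an.AllSpaces
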